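import Mathlib
import Pool.Agent.R984.LpRelaxMain

/-!
# MP_bbed2d_pr, Q1: the bound `E[τ_p(ε)] ≤ C |I| |E| Diam log(n/ε)` fails for every `p > 2`.

The graph: a path `x_0, …, x_{n+1}`, a vertex `b_i` attached to every `x_i`, and a hub `c`
adjacent to all `b_i`; the interior is `{x_1, …, x_n}`; boundary values `i/(n+1)` at `x_0`,
`x_{n+1}` and at every `b_i`, and `0` at `c`.  The `p`-harmonic extension is `h(x_i) = i/(n+1)`:
the edges `x_i b_i` carry gradient zero, so for `p > 2` they do not help, and near `h` the process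
is as slow as on the path alone.
-/

open scoped ENNReal
open R984.LpRelax

namespace Pool.Agent.Results.MP_bbed2d_pr.DiameterBoundFails

/-- The bound asked for in Q1, with constant `C`. -/
def DiamBound (p C : ℝ) : Prop :=
  ∀ (V : Type) [Fintype V] (G : SimpleGraph V) (I : Finset V) [Nonempty I]
    (f₀ h : V → ℝ) (ε : ℝ), G.Connected → (∃ v, v ∉ I) → (∀ v, 0 ≤ f₀ v ∧ f₀ v ≤ 1) →
    IsPHarmonicExt G p I f₀ h → 0 < ε → ε ≤ 1 / 2 →
    expTau G p I f₀ h ε ≤ ENNReal.ofReal
      (C * (I.card * G.edgeSet.ncard * G.diam * Real.log (Fintype.card V / ε)))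

/-- The main construction, with explicit parameters. -/
lemma construction (p : ℝ) (hp : 2 < p) (n : ℕ) (hn : 1 ≤ n) :
    ∃ (I : Finset (Vx n)) (_ : Nonempty I) (f₀ h : Vx n → ℝ) (ε : ℝ),
      (∃ v, v ∉ I) ∧ (∀ v, 0 ≤ f₀ v ∧ f₀ v ≤ 1) ∧
      IsPHarmonicExt (Gr n) p I f₀ h ∧ 0 < ε ∧ ε ≤ 1 / 2 ∧ I.card = n ∧
      ENNReal.ofReal ((n : ℝ) * (n + 1) * (n + 2) / 96) ≤ expTau (Gr n) p I f₀ h ε ∧
      0 < Real.log (Fintype.card (Vx n) / ε) ∧
      Real.log (Fintype.card (Vx n) / ε) ≤ (7 + 2 / (p - 2)) * Real.log (n + 1) := by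
  have hnpos : (0:ℝ) < n := by exact_mod_cast hn
  have hn1 : (1:ℝ) ≤ n := by exact_mod_cast hn
  have hp2 : 0 < p - 2 := by linarith
  set m : ℝ := (n : ℝ) + 1 with hm
  have hm2 : 2 ≤ m := by linarith
  have hm0 : 0 < m := by linarith
  set q : ℝ := 2 / (p - 2) with hq
  have hq0 : 0 < q := by positivity
  set δ : ℝ := 1 / (2 * m) * m ^ (-q) with hδ
  have hmq : 0 < m ^ (-q) := Real.rpow_pos_of_pos hm0 _
  have hmq1 : m ^ (-q) ≤ 1 := Real.rpow_le_one_of_one_le_of_nonpos (by linarith) (by linarith)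
  have hδpos : 0 < δ := by positivity
  have hδ1 : δ * (2 * m) = m ^ (-q) := by rw [hδ]; field_simp
  have hδle : δ * (2 * m) ≤ 1 := by rw [hδ1]; exact hmq1
  have hκ : (2 * m * δ) ^ (p - 2) ≤ 1 / m ^ 2 := by
    have : 2 * m * δ = m ^ (-q) := by rw [← hδ1]; ring
    rw [this, ← Real.rpow_mul hm0.le]
    have e : -q * (p - 2) = -(2:ℕ) := by rw [hq]; field_simp; norm_num
    rw [e, Real.rpow_neg hm0.le, Real.rpow_natCast, one_div]
  haveI hne : Nonempty (Int n) := by
    have : (Int n).Nonempty := by rw [← Finset.card_pos, card_Int]; exact hn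
    exact this.coe_sort
  refine ⟨Int n, hne, f0 n δ, hf n, δ / 4, ?_, ?_, hf_isPHarmonicExt n (by linarith) δ,
    by positivity, ?_, card_Int n, ?_, ?_, ?_⟩
  · exact ⟨X n 0, X_not_mem (Or.inl rfl)⟩
  · intro v
    have hhf0 : ∀ v, 0 ≤ hf n v := by
      intro v
      rcases v with _ | ⟨i, b⟩
      · simp [hf]
      · simp only [hf]; positivity
    have hhf1 : ∀ v, hf n v ≤ 1 := by
      intro v
      rcases v with _ | ⟨i, b⟩
      · simp [hf]
      · simp only [hf]
        rw [div_le_one (by positivity)]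
        have := i.2
        have : (i.val : ℝ) ≤ n + 1 := by exact_mod_cast (by omega : i.val ≤ n + 1)
        exact this
    classical
    by_cases hv : v ∈ Int n
    · obtain ⟨i, hi, rfl⟩ := mem_Int.mp hv
      have e : f0 n δ (X n (i + 1)) = hf n (X n (i + 1)) + δ := by simp [f0, hv]
      rw [e]
      refine ⟨by have := hhf0 (X n (i + 1)); linarith, ?_⟩
      rw [hf_X _ _ (by omega)]
      have h1 : (((i + 1 : ℕ) : ℝ)) ≤ n := by exact_mod_cast hi
      have h2 : ((i + 1 : ℕ) : ℝ) / (n + 1) ≤ (n : ℝ) / (n + 1) := by gcongr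
      have h3 : (n : ℝ) / (n + 1) = 1 - 1 / m := by rw [hm]; field_simp; ring
      have h4 : δ ≤ 1 / m := by
        rw [le_div_iff₀ hm0]
        nlinarith
      linarith
    · have e : f0 n δ v = hf n v := by simp [f0, hv]
      rw [e]
      exact ⟨hhf0 v, hhf1 v⟩
  · have : δ ≤ 1 := by nlinarith
    linarith
  · -- lower bound for E τ
    set T : ℕ := ⌊(n : ℝ) * (n + 1) * (n + 2) / 24⌋₊ with hT
    have hT1 : (T : ℝ) ≤ (n : ℝ) * (n + 1) * (n + 2) / 24 := Nat.floor_le (by positivity)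
    have hT2 : (n : ℝ) * (n + 1) * (n + 2) / 24 < T + 1 := Nat.lt_floor_add_one _
    have hbad := many_bad n hp δ hδpos (by rw [← hm]; exact hδle) (by rw [← hm]; exact hκ) T hn
      (by linarith)
    have hlow := expTau_ge (Gr n) p (Int n) (f0 n δ) (hf n) (δ / 4) (InClass n δ)
      (f0_inClass n hδpos.le) (fun f hf' v hv => inClass_relax n hp δ hδpos.le f hf' v hv)
      (by
        intro f hf' hcl v hv w
        have hcl' : InClass n (δ / 4) f :=
          ⟨fun v => ⟨(hf'.1 v).1, (le_abs_self _).trans (hcl v)⟩, hf'.2⟩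
        have := (inClass_relax n hp (δ / 4) (by positivity) f hcl' v hv).1 w
        rw [abs_of_nonneg this.1]
        exact this.2) T hbad
    refine le_trans (ENNReal.ofReal_le_ofReal ?_) hlow
    linarith
  · apply Real.log_pos
    rw [card_Vx, one_lt_div (by positivity)]
    have : δ ≤ 1 := by nlinarith
    have : (5:ℝ) ≤ ((2 * n + 5 : ℕ) : ℝ) := by exact_mod_cast (by omega : 5 ≤ 2 * n + 5)
    linarith
  · rw [card_Vx]
    have h1 : ((2 * n + 5 : ℕ) : ℝ) / (δ / 4) = (2 * m + 3) * (8 * m) * m ^ q := by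
      have h2 : m ^ q * m ^ (-q) = 1 := by
        rw [← Real.rpow_add hm0]; simp
      have h3 : ((2 * n + 5 : ℕ) : ℝ) = 2 * m + 3 := by rw [hm]; push_cast; ring
      rw [h3, div_eq_iff (by positivity)]
      calc 2 * m + 3 = (2 * m + 3) * (m ^ q * m ^ (-q)) := by rw [h2, mul_one]
        _ = (2 * m + 3) * (8 * m) * m ^ q * (δ / 4) := by rw [← hδ1]; ring
    rw [h1]
    have h4 : (2 * m + 3) * (8 * m) * m ^ q ≤ m ^ (7 + q) := by
      rw [Real.rpow_add hm0]
      have h5 : (2 * m + 3) * (8 * m) ≤ m ^ (7:ℝ) := by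
        have : m ^ (7:ℝ) = m ^ 7 := by exact_mod_cast Real.rpow_natCast m 7
        rw [this]
        have h6 : 2 * m + 3 ≤ m ^ 3 := by nlinarith [mul_self_nonneg (m - 2)]
        have h7 : 8 * m ≤ m ^ 4 := by
          have : 8 ≤ m ^ 3 := by nlinarith [mul_self_nonneg (m - 2)]
          nlinarith
        calc (2 * m + 3) * (8 * m) ≤ m ^ 3 * m ^ 4 :=
              mul_le_mul h6 h7 (by positivity) (by positivity)
          _ = m ^ 7 := by ring
      exact mul_le_mul_of_nonneg_right h5 (by positivity)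
    calc Real.log ((2 * m + 3) * (8 * m) * m ^ q) ≤ Real.log (m ^ (7 + q)) :=
          Real.log_le_log (by positivity) h4
      _ = (7 + q) * Real.log m := Real.log_rpow hm0 _

/-- **Disproof of Q1 for every `p > 2`.**  No constant `C` works, and the bound fails by a factor
of order at least `n / log n` on graphs with `2n + 5` vertices, at most `3(n+2)` edges and
diameter at most `4`. -/
theorem result (p : ℝ) (hp : 2 < p) :
    (∀ C : ℝ, ¬ DiamBound p C) ∧
    ∃ c : ℝ, 0 < c ∧ ∀ n : ℕ, 1 ≤ n →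
      ∃ (V : Type) (_ : Fintype V) (G : SimpleGraph V) (I : Finset V) (_ : Nonempty I)
        (f₀ h : V → ℝ) (ε : ℝ),
        G.Connected ∧ (∃ v, v ∉ I) ∧ (∀ v, 0 ≤ f₀ v ∧ f₀ v ≤ 1) ∧
        IsPHarmonicExt G p I f₀ h ∧ 0 < ε ∧ ε ≤ 1 / 2 ∧
        Fintype.card V = 2 * n + 5 ∧ I.card = n ∧ G.edgeSet.ncard ≤ 3 * (n + 2) ∧ G.diam ≤ 4 ∧
        ENNReal.ofReal (c * ((n + 1) / Real.log (n + 1)) *
            (I.card * G.edgeSet.ncard * G.diam * Real.log (Fintype.card V / ε)))
          < expTau G p I f₀ h ε := by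
  classical
  have hp2 : 0 < p - 2 := by linarith
  set K : ℝ := 7 + 2 / (p - 2) with hK
  have hK0 : 0 < K := by positivity
  have hedge : ∀ n, ((Gr n).edgeSet.ncard : ℝ) ≤ 3 * ((n : ℝ) + 2) := by
    intro n
    have h1 := gr_edges n
    have h2 : (Gr n).edgeSet.ncard = (Gr n).edgeFinset.card := by
      rw [Set.ncard_eq_toFinset_card', SimpleGraph.edgeFinset]
    rw [h2]
    exact_mod_cast h1
  have hdiam : ∀ n, ((Gr n).diam : ℝ) ≤ 4 := fun n => by exact_mod_cast gr_diam n
  refine ⟨?_, ?_⟩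
  · intro C hC
    -- choose n large
    have hlim : Filter.Tendsto (fun x : ℝ => Real.log x / x) Filter.atTop (nhds 0) := by
      have := Real.isLittleO_log_id_atTop.tendsto_div_nhds_zero
      simpa using this
    set D : ℝ := 1152 * K * |C| + 1 with hD
    have hD0 : 0 < D := by positivity
    have hev : ∀ᶠ x : ℝ in Filter.atTop, Real.log x / x < 1 / D :=
      hlim.eventually (gt_mem_nhds (by positivity))
    obtain ⟨x₀, hx₀⟩ := Filter.eventually_atTop.mp hev
    obtain ⟨n, hn⟩ := exists_nat_ge (max x₀ 1)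
    have hn1 : 1 ≤ n := by
      have : (1:ℝ) ≤ n := (le_max_right _ _).trans hn
      exact_mod_cast this
    have hnpos : (0:ℝ) < n := by exact_mod_cast hn1
    obtain ⟨I, hI, f₀, h, ε, hex, hf01, hharm, hε, hε2, hIc, hlow, hlog0, hlog⟩ :=
      construction p hp n hn1
    have h1 := hC (Vx n) (Gr n) I f₀ h ε (gr_connected n) hex hf01 hharm hε hε2
    have h2 := hlow.trans h1
    have h3 : (n : ℝ) * (n + 1) * (n + 2) / 96 ≤
        |C| * (n * (3 * (n + 2)) * 4 * (K * Real.log (n + 1))) := by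
      have h4 : C * (I.card * (Gr n).edgeSet.ncard * (Gr n).diam *
          Real.log (Fintype.card (Vx n) / ε)) ≤
          |C| * (n * (3 * (n + 2)) * 4 * (K * Real.log (n + 1))) := by
        rw [hIc]
        have hE := hedge n
        have hd := hdiam n
        calc C * (n * (Gr n).edgeSet.ncard * (Gr n).diam * Real.log (Fintype.card (Vx n) / ε))
            ≤ |C| * (n * (Gr n).edgeSet.ncard * (Gr n).diam *
                Real.log (Fintype.card (Vx n) / ε)) :=
              mul_le_mul_of_nonneg_right (le_abs_self C) (by positivity)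
          _ ≤ |C| * (n * (3 * (n + 2)) * 4 * (K * Real.log (n + 1))) := by gcongr
      by_contra hcon
      push Not at hcon
      have h5 : C * (I.card * (Gr n).edgeSet.ncard * (Gr n).diam *
          Real.log (Fintype.card (Vx n) / ε)) < (n : ℝ) * (n + 1) * (n + 2) / 96 :=
        lt_of_le_of_lt h4 hcon
      have h6 := (ENNReal.ofReal_lt_ofReal_iff (by positivity)).mpr h5
      exact absurd h2 (not_le.mpr h6)
    have h7 := hx₀ ((n : ℝ) + 1) (by have := (le_max_left x₀ 1).trans hn; linarith)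
    rw [div_lt_div_iff₀ (by positivity) hD0] at h7
    have hlogn : 0 ≤ Real.log ((n : ℝ) + 1) := Real.log_nonneg (by linarith)
    -- log(n+1) * D < n+1
    have h8 : (n : ℝ) + 1 ≤ 1152 * K * |C| * Real.log (n + 1) := by
      have h9 : 0 < (n : ℝ) * (n + 2) := by positivity
      have h10 : ((n : ℝ) * (n + 2)) * (n + 1) ≤
          ((n : ℝ) * (n + 2)) * (1152 * K * |C| * Real.log (n + 1)) := by
        nlinarith
      exact le_of_mul_le_mul_left h10 h9
    have h11 : Real.log ((n : ℝ) + 1) * D = 1152 * K * |C| * Real.log (n + 1)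
        + Real.log (n + 1) := by rw [hD]; ring
    linarith
  · refine ⟨1 / (2304 * K), by positivity, fun n hn => ?_⟩
    have hnpos : (0:ℝ) < n := by exact_mod_cast hn
    obtain ⟨I, hI, f₀, h, ε, hex, hf01, hharm, hε, hε2, hIc, hlow, hlog0, hlog⟩ :=
      construction p hp n hn
    refine ⟨Vx n, inferInstance, Gr n, I, hI, f₀, h, ε, gr_connected n, hex, hf01, hharm, hε, hε2,
      card_Vx n, hIc, by exact_mod_cast hedge n, gr_diam n, ?_⟩
    refine lt_of_lt_of_le ?_ hlow
    rw [ENNReal.ofReal_lt_ofReal_iff (by positivity), hIc]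
    have hE := hedge n
    have hd := hdiam n
    have hlogn : 0 < Real.log ((n : ℝ) + 1) := Real.log_pos (by linarith)
    calc 1 / (2304 * K) * ((n + 1) / Real.log (n + 1)) *
          (n * (Gr n).edgeSet.ncard * (Gr n).diam * Real.log (Fintype.card (Vx n) / ε))
        ≤ 1 / (2304 * K) * ((n + 1) / Real.log (n + 1)) *
          (n * (3 * (n + 2)) * 4 * (K * Real.log (n + 1))) := by gcongr
      _ = (n : ℝ) * (n + 1) * (n + 2) / 192 := by
          field_simp
          ring
      _ < (n : ℝ) * (n + 1) * (n + 2) / 96 := by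
          have : 0 < (n : ℝ) * (n + 1) * (n + 2) := by positivity
          linarith

end Pool.Agent.Results.MP_bbed2d_pr.DiameterBoundFails
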